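import Pool.Agent.MP_5f4cdd_gt.OKB.Gen
import Pool.Agent.MP_5f4cdd_gt.OK.Unif
import Pool.Agent.MP_5f4cdd_gt.OK.Defs

set_option autoImplicit false
open MvPolynomial AddMonoidAlgebra Pointwise Cardinal

namespace Pool.Agent.MP_5f4cdd_gt.OKB

variable {N : ℕ}

theorem abs_le_of_mem_nsmul {A : Finset (Zn N)} {M : ℕ} (hM : ∀ z ∈ A, ∀ i, |z i| ≤ M) (k : ℕ) :
    ∀ z ∈ k • A, ∀ i, |z i| ≤ (k * M : ℕ) := by
  induction k with
  | zero => intro z hz i; rw [zero_nsmul] at hz; rw [Finset.mem_zero.1 hz]; simp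
  | succ k ih =>
    intro z hz i
    rw [succ_nsmul] at hz
    obtain ⟨a, ha, b, hb, rfl⟩ := Finset.mem_add.1 hz
    have h1 := ih a ha i
    have h2 := hM b hb i
    have h3 := abs_add_le (a i) (b i)
    push_cast at h1 ⊢
    rw [Pi.add_apply]
    linarith

theorem exists_bound (A : Finset (Zn N)) : ∃ M : ℕ, ∀ z ∈ A, ∀ i, |z i| ≤ M := by
  refine ⟨A.sup fun z => Finset.univ.sup fun i => (z i).natAbs, fun z hz i => ?_⟩
  rw [← Int.natCast_natAbs, Nat.cast_le]
  exact (Finset.le_sup (f := fun i => (z i).natAbs) (Finset.mem_univ i)).trans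
    (Finset.le_sup (f := fun z : Zn N => Finset.univ.sup fun i => (z i).natAbs) hz)

theorem card_le_box {P : Finset (Zn N)} {R : ℕ} (h : ∀ z ∈ P, ∀ i, |z i| ≤ R) :
    P.card ≤ (2 * R + 1) ^ N := by
  have h1 : P ⊆ Fintype.piFinset fun _ : Fin N => Finset.Icc (-(R : ℤ)) R := fun z hz =>
    Fintype.mem_piFinset.2 fun i => Finset.mem_Icc.2 (abs_le.1 (h z hz i))
  refine (Finset.card_le_card h1).trans (le_of_eq ?_)
  rw [Fintype.card_piFinset, Finset.prod_const, Finset.card_univ, Fintype.card_fin, Int.card_Icc]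
  congr 1
  omega

/-- the cast of exponents -/
def cst (g : Fin N →₀ ℕ) : Zn N := fun i => g i

theorem cst_inj : Function.Injective (cst (N := N)) := fun a b h => by
  ext i
  have := congrFun h i
  simpa [cst] using this

section
variable {C D : Type} [CommRing C] [CommRing D] [IsDomain C] [IsDomain D] [Algebra C D]
  (ψ : AddMonoidAlgebra C (Zn N) →+* MvPolynomial (Fin N) D)
  (hc : ∀ δ : C, constantCoeff (ψ (single 0 δ)) = algebraMap C D δ)
  (η : D → AddMonoidAlgebra C (Zn N)) (hη : ∀ h, ψ (η h) = MvPolynomial.C h)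
  {A : Finset (Zn N)} (h0 : (0 : Zn N) ∈ A) (s : Fin N → AddMonoidAlgebra C (Zn N))
  (hs : ∀ l, s l ∈ V C A) (hψs : ∀ l, ψ (s l) = X l)

include h0 hs hψs in
theorem exists_mono (g : Fin N →₀ ℕ) (x : ℕ) (hx : ∀ l, g l ≤ x) :
    ∃ f ∈ V C ((N * x) • A), IsOrd (ψ f) g := by
  have key : ∀ T : Finset (Fin N), ∏ l ∈ T, s l ^ g l ∈ V C ((T.card * x) • A) := by
    intro T
    induction T using Finset.induction_on with
    | empty => simpa using pow_mem_V (C := C) (P := A) (f := 0) (zero_mem _) 0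
    | insert l T hl ih =>
      rw [Finset.prod_insert hl, Finset.card_insert_of_notMem hl, add_mul, one_mul, add_comm,
        add_nsmul]
      exact mul_mem_V (V_mono (Finset.nsmul_subset_nsmul_right h0 (hx l)) (pow_mem_V (hs l) _)) ih
  refine ⟨_, by simpa using key Finset.univ, ?_⟩
  have : ψ (∏ l, s l ^ g l) = monomial g 1 := by
    rw [map_prod, monomial_eq, map_one, one_mul, Finsupp.prod_fintype _ _ (by simp)]
    simp only [map_pow, hψs]
  rw [this]
  exact isOrd_monomial one_ne_zero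

include hc hη h0 hs hψs in
theorem rank_fin : ∃ d : ℕ, Module.rank C D = d := by
  obtain ⟨M, hM⟩ := exists_bound A
  have : Module.rank C D ≤ ((2 * (N * M) + 2) ^ N : ℕ) := by
    refine _root_.rank_le fun t ht => ?_
    obtain ⟨P0, hP0⟩ := card_mul_le ψ hc η hη (fun i : t => (i : D)) ht
    obtain ⟨c, hc0⟩ := exists_bound P0
    have h1 := hP0 ((N * c) • A)
      ((Fintype.piFinset fun _ : Fin N => Finset.range (c + 1)).map
        Finsupp.equivFunOnFinite.symm.toEmbedding) (by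
        intro g hg
        obtain ⟨u, hu, rfl⟩ := Finset.mem_map.1 hg
        refine exists_mono ψ h0 s hs hψs _ c fun l => ?_
        have := Finset.mem_range.1 (Fintype.mem_piFinset.1 hu l)
        simpa using Nat.lt_succ_iff.1 this)
    have h2 : ((N * c) • A + P0).card ≤ (2 * (N * c * M + c) + 1) ^ N := by
      refine card_le_box fun z hz i => ?_
      obtain ⟨a, ha, b, hb, rfl⟩ := Finset.mem_add.1 hz
      have h1 := abs_le_of_mem_nsmul hM _ a ha i
      have h2 := hc0 b hb i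
      have h3 := abs_add_le (a i) (b i)
      push_cast at h1 ⊢
      rw [Pi.add_apply]
      linarith
    rw [Finset.card_map, Fintype.card_piFinset, Finset.prod_const, Finset.card_univ,
      Fintype.card_fin, Finset.card_range, Fintype.card_coe] at h1
    have h3 : (2 * (N * c * M + c) + 1) ^ N ≤ (2 * (N * M) + 2) ^ N * (c + 1) ^ N := by
      rw [← mul_pow]
      exact Nat.pow_le_pow_left (by nlinarith [Nat.zero_le (N * M)]) _
    exact Nat.le_of_mul_le_mul_right (h1.trans (h2.trans h3)) (by positivity)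
  exact Cardinal.lt_aleph0.1 (this.trans_lt Cardinal.natCast_lt_aleph0)

include hc hη h0 hs hψs in
theorem flag_of (B : Finset (Zn N)) (hinj : Function.Injective ψ)
    (hι : Function.Injective (algebraMap C D))
    (hz : ∀ z, ∃ h, ψ (single z 1) = MvPolynomial.C h)
    (hdiv : ∃ x0 : ℕ, ∀ (j : Fin N) (x y : ℕ), x0 ≤ x → ∀ f ∈ V C ((x + 1) • A + y • B),
      ψ f ∈ Ideal.span (X '' {i | i ≤ j} : Set (MvPolynomial (Fin N) D)) →
      ∃ q : Fin N → AddMonoidAlgebra C (Zn N), (∀ l, q l ∈ V C (x • A + y • B)) ∧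
        f = ∑ l ∈ Finset.Iic j, s l * q l) : Nonempty (OK.Flag A B) := by
  classical
  obtain ⟨d, hd⟩ := rank_fin ψ hc η hη h0 s hs hψs
  obtain ⟨h, hh⟩ := exists_linearIndependent_of_le_rank (R := C) (M := D) hd.ge
  obtain ⟨P0, hP0⟩ := card_mul_le ψ hc η hη h hh
  obtain ⟨x0, hx0⟩ := hdiv
  have hlo : ∀ (P : Finset (Zn N)) (S : Finset (Fin N →₀ ℕ)),
      (∀ g, (∃ f ∈ V C P, IsOrd (ψ f) g) → g ∈ S) → P.card ≤ d * S.card := by
    intro P S hS
    have := rank_le ψ hc (S.map toLex.toEmbedding) (V C P) fun f hf hne => by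
      obtain ⟨g, hg⟩ := exists_ord (p := ψ f) fun e => hne (hinj (e.trans (map_zero ψ).symm))
      exact ⟨g, Finset.mem_map_of_mem _ (hS g ⟨f, hf, hg⟩), hg⟩
    rw [rank_V, hd, Finset.card_map] at this
    exact_mod_cast this
  have hdpos : 0 < d := by
    have h1 : LinearIndependent C fun _ : Unit => (1 : D) := by
      rw [Fintype.linearIndependent_iff]
      intro g hg i
      rw [Fintype.sum_unique, ← Algebra.algebraMap_eq_smul_one] at hg
      exact hι (hg.trans (map_zero _).symm)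
    have := h1.cardinal_le_rank
    rw [hd] at this
    simpa [Nat.pos_iff_ne_zero, Nat.one_le_iff_ne_zero] using this
  have hfin : ∀ P : Finset (Zn N), {g | ∃ f ∈ V C P, IsOrd (ψ f) g}.Finite := by
    intro P
    by_contra hinf
    obtain ⟨S, hS, hcard⟩ := Set.Infinite.exists_subset_card_eq hinf ((P + P0).card + 1)
    have := hP0 P S fun g hg => hS hg
    rw [Fintype.card_fin, hcard] at this
    nlinarith
  have mem : ∀ (P : Finset (Zn N)) (z : Zn N), z ∈ (hfin P).toFinset.image cst ↔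
      ∃ g, (∃ f ∈ V C P, IsOrd (ψ f) g) ∧ cst g = z := by
    intro P z
    simp only [Finset.mem_image, Set.Finite.mem_toFinset, Set.mem_setOf_eq]
  refine ⟨⟨d, x0, P0, fun P => (hfin P).toFinset.image cst, hdpos, ?_, ?_, ?_, ?_, ?_, ?_, ?_, ?_⟩⟩
  · intro P Q hPQ z hz
    obtain ⟨g, ⟨f, hf, ho⟩, rfl⟩ := (mem _ _).1 hz
    exact (mem _ _).2 ⟨g, ⟨f, V_mono hPQ hf, ho⟩, rfl⟩
  · intro P Q z hz
    obtain ⟨a, ha, b, hb, rfl⟩ := Finset.mem_add.1 hz
    obtain ⟨g, ⟨f, hf, ho⟩, rfl⟩ := (mem _ _).1 ha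
    obtain ⟨g', ⟨f', hf', ho'⟩, rfl⟩ := (mem _ _).1 hb
    refine (mem _ _).2 ⟨g + g', ⟨f * f', mul_mem_V hf hf', ?_⟩, ?_⟩
    · rw [map_mul]; exact ho.mul ho'
    · ext i; simp [cst]
  · intro P
    rw [Finset.card_image_of_injective _ cst_inj]
    exact hlo P _ fun g hg => (Set.Finite.mem_toFinset _).2 hg
  · intro P
    rw [Finset.card_image_of_injective _ cst_inj]
    simpa using hP0 P (hfin P).toFinset fun g hg => (hfin P).mem_toFinset.1 hg
  · rintro P ⟨z, hzP⟩
    refine (mem _ _).2 ⟨0, ⟨single z 1, single_mem_V hzP _, ?_, van_zero _⟩, ?_⟩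
    · obtain ⟨h, hh⟩ := hz z
      rw [hh, coeff_zero_C]
      rintro rfl
      rw [map_zero] at hh
      exact single_ne_zero.2 one_ne_zero (hinj (hh.trans (map_zero ψ).symm))
    · ext i; simp [cst]
  · intro j
    refine (mem _ _).2 ⟨Finsupp.single j 1, ⟨s j, hs j, ?_⟩, ?_⟩
    · rw [hψs]; exact isOrd_monomial one_ne_zero
    · ext i
      by_cases h : i = j
      · subst h; simp [cst]
      · simp [cst, h]
  · intro P z hz l
    obtain ⟨g, -, rfl⟩ := (mem _ _).1 hz
    simp [cst]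
  · intro x y hx j z hz hlt hj
    obtain ⟨g, ⟨f, hf, ho⟩, rfl⟩ := (mem _ _).1 hz
    have hg : ∀ i < j, g i = 0 := fun i hi => by simpa [cst] using hlt i hi
    have hgj : 0 < g j := Nat.pos_of_ne_zero (by simpa [cst] using hj)
    obtain ⟨q, hq, hfq⟩ := hx0 j x y hx f hf (mem_span_X ho.2 hg hgj)
    refine (mem _ _).2 ⟨g - Finsupp.single j 1, ⟨q j, hq j, ho.div hg hgj (fun l => ψ (q l)) ?_⟩, ?_⟩
    · rw [hfq, map_sum]; simp only [map_mul, hψs]
    · ext i
      by_cases h : i = j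
      · subst h
        simp only [cst, Finsupp.coe_tsub, Pi.sub_apply, Finsupp.single_eq_same, Pi.single_eq_same]
        omega
      · simp [cst, h]

end

theorem V_eq {C : Type} [CommRing C] (P : Finset (Zn N)) :
    OKU.V C (fun z : Zn N => (single z 1 : AddMonoidAlgebra C (Zn N))) P = V C P := by
  rw [V, supported_eq_span_single]; rfl

theorem alg : OK.AlgStmt := by
  intro N A B h0 he
  letI : Algebra (Cv A) (Dv A) := (io A).toAlgebra
  have hm0 : (single (0 : Zn N) 1 : Ev A) = 1 := rfl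
  have hm : ∀ a b : Zn N, (single (a + b) 1 : Ev A) = single a 1 * single b 1 := fun a b => by
    rw [single_mul_single, mul_one]
  refine flag_of (psi A) (const_psi A) (eta A) (psi_eta A) h0 (ss A) (ss_mem A h0 he) (psi_ss A) B
    (Function.LeftInverse.injective (th_psi A)) (io_inj A)
    (fun z => ⟨C (single z 1), by rw [psi_single, map_one, one_mul]⟩) ?_
  have key : ∀ j : Fin N, ∃ x0 : ℕ, ∀ (x y : ℕ) (f : Ev A), x0 < x →
      f ∈ OKU.V (Cv A) (fun z : Zn N => (single z 1 : Ev A)) (x • A + y • B) →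
      f ∈ Ideal.span (ss A '' {i | i ≤ j}) →
      OKU.W (Cv A) (fun z : Zn N => (single z 1 : Ev A)) (Finset.Iic j) (ss A)
        ((x - 1) • A + y • B) f := by
    intro j
    refine OKU.unif hm0 hm A B _ _ _ fun P f hf hI a ha => ?_
    refine OKU.sat hm0 hm A _ _ (fun l => (V_eq A).ge (ss_mem A h0 he l)) a ha
      (sub A (Finset.Iic j) ⟨a, ha⟩) (sub_single A _ _) (sub_C A _ _) (fun t => ?_) P f hf ?_
    · have := sub_X A (Finset.Iic j) ⟨a, ha⟩ t
      by_cases h : t.1 ∈ Finset.Iic j ∧ t.2 = ⟨a, ha⟩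
      · rw [if_pos h] at this
        exact Or.inr ⟨t.1, h.1, this⟩
      · rw [if_neg h] at this
        exact Or.inl (this.trans (sub_zero (single 0 (X t) : Ev A)))
    · refine (Ideal.span_le (I := RingHom.ker (sub A (Finset.Iic j) ⟨a, ha⟩))).2 ?_ hI
      rintro _ ⟨l, hl, rfl⟩
      exact sub_ss A _ _ (Finset.mem_Iic.2 hl)
  choose x0 hx0 using key
  refine ⟨Finset.univ.sup x0, fun j x y hx f hf hI => ?_⟩
  have h1 : x0 j < x + 1 := Nat.lt_succ_of_le ((Finset.le_sup (Finset.mem_univ j)).trans hx)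
  have h2 : f ∈ Ideal.span (ss A '' {i | i ≤ j}) := by
    have := Ideal.mem_map_of_mem (th A) hI
    rw [th_psi, Ideal.map_span, Set.image_image] at this
    simpa only [th_X] using this
  obtain ⟨q, hq, hfq⟩ := hx0 j (x + 1) y f h1 ((V_eq _).ge hf) h2
  exact ⟨q, fun l => (V_eq _).le (hq l), hfq⟩

end Pool.Agent.MP_5f4cdd_gt.OKB
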