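import Pool.Agent.MP_5f4cdd_gt.OKB.Alg
import Pool.Agent.MP_5f4cdd_gt.OK.Ent
import Pool.Agent.MP_5f4cdd_gt.OK.Int
import Pool.Agent.MP_5f4cdd_gt.OK.One
import Pool.Agent.MP_5f4cdd_gt.OK.DI
import Pool.Agent.MP_5f4cdd_gt.OK.Up
import Pool.Agent.MP_5f4cdd_gt.OK.ASide
import Pool.Agent.MP_5f4cdd_gt.OK.BSide
import Pool.Agent.MP_5f4cdd_gt.OK.Fact
import Pool.Agent.MP_5f4cdd_gt.OK.Re
import Pool.Agent.MP_5f4cdd_gt.OK.Cnt
import Pool.Agent.MP_5f4cdd_gt.OK.Sel1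
import Pool.Agent.MP_5f4cdd_gt.OK.Sel
import Pool.Agent.MP_5f4cdd_gt.OK.UA
import Pool.Agent.MP_5f4cdd_gt.OK.Core
import Pool.Agent.MP_5f4cdd_gt.OK.TB0
import Pool.Agent.MP_5f4cdd_gt.OK.TB
import Pool.Agent.MP_5f4cdd_gt.OK.EPol
import Pool.Agent.MP_5f4cdd_gt.OK.ELap
import Pool.Agent.MP_5f4cdd_gt.OK.EChTh
import Pool.Agent.MP_5f4cdd_gt.OK.ERate
import Pool.Agent.MP_5f4cdd_gt.OK.ESplit
import Pool.Agent.MP_5f4cdd_gt.OK.EBeta
import Pool.Agent.MP_5f4cdd_gt.OK.EJnGeo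
import Pool.Agent.MP_5f4cdd_gt.OK.EJnVol
import Pool.Agent.MP_5f4cdd_gt.OK.EFin
import Pool.Agent.MP_5f4cdd_gt.LJ.All2

set_option autoImplicit false

namespace Pool.Agent.MP_5f4cdd_gt.OKB
open OK

theorem di_all : DIStmt := di_stmt (one_stmt int_stmt)

theorem tb_all : TBStmt :=
  tb_stmt (tb0_stmt alg cnt_stmt (sel_stmt (sel1_stmt up_stmt cnt_stmt)) (ua_stmt cnt_stmt)
    (ub_stmt cnt_stmt)
    (core_stmt ent_stmt (aside_stmt ent_stmt di_all sim_stmt) (bside_stmt ent_stmt di_all sim_stmt)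
      fact_stmt (re_stmt fact_stmt)) opt_stmt)

theorem sharp_all : SharpStmt :=
  sharp_stmt (rate_stmt tb_all (chth_stmt LJ.chord_mahler pol_stmt lap_stmt) pol_stmt)
    (join_stmt pol_stmt jngeo_stmt (jnvol_stmt split_stmt beta_stmt jngeo_stmt))

theorem final_all : FinalStmt := final_stmt sharp_all pol_stmt lap_stmt

end Pool.Agent.MP_5f4cdd_gt.OKB
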