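import Pool.Agent.MP_5f4cdd_gt.OKB.Rank

set_option autoImplicit false
open MvPolynomial AddMonoidAlgebra Pointwise

namespace Pool.Agent.MP_5f4cdd_gt.OKB

abbrev Zn (N : ℕ) : Type := Fin N → ℤ
abbrev Lz (N : ℕ) : Type := AddMonoidAlgebra ℤ (Zn N)
abbrev Tz (N : ℕ) : Type := MvPolynomial (Fin N) ℤ
abbrev Cv {N : ℕ} (A : Finset (Zn N)) : Type := MvPolynomial (Fin N × A) (Tz N)
abbrev Dv {N : ℕ} (A : Finset (Zn N)) : Type := MvPolynomial (Fin N × A) (Lz N)
abbrev Ev {N : ℕ} (A : Finset (Zn N)) : Type := AddMonoidAlgebra (Cv A) (Zn N)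
abbrev Pv {N : ℕ} (A : Finset (Zn N)) : Type := MvPolynomial (Fin N) (Dv A)

variable {N : ℕ} (A : Finset (Zn N))

noncomputable def uu (l : Fin N) : Dv A :=
  C (single (Pi.single l 1) 1) - ∑ a : A, C (single a.1 1) * X (l, a)

noncomputable def rho : Cv A →+* Pv A :=
  eval₂Hom (eval₂Hom (Int.castRingHom (Pv A)) fun l => X l + C (uu A l)) fun t => C (X t)

noncomputable def psi : Ev A →+* Pv A :=
  liftNCRingHom (rho A)
    ((((C : Dv A →+* Pv A).comp (C : Lz N →+* Dv A)) : Lz N →* Pv A).comp (of ℤ (Zn N)))
    fun _ _ => Commute.all _ _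

theorem psi_single (z : Zn N) (c : Cv A) :
    psi A (single z c) = rho A c * C (C (single z 1)) := by
  rw [psi, liftNCRingHom_single]; rfl

noncomputable def ss (l : Fin N) : Ev A :=
  single 0 (C (X l)) - single (Pi.single l 1) 1 + ∑ a : A, single a.1 (X (l, a))

noncomputable def eta : Dv A →+* Ev A :=
  eval₂Hom (mapRingHom (Zn N) (Int.castRingHom (Cv A))) fun t => single 0 (X t)

noncomputable def th : Pv A →+* Ev A := eval₂Hom (eta A) (ss A)

theorem eta_C (z : Zn N) : eta A (C (single z 1)) = single z 1 := by
  simp [eta]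

theorem eta_X (t : Fin N × A) : eta A (X t) = single 0 (X t) := by simp [eta]

theorem th_C (h : Dv A) : th A (C h) = eta A h := by simp [th]

theorem th_X (l : Fin N) : th A (X l) = ss A l := by simp [th]

theorem rho_X (t : Fin N × A) : rho A (X t) = C (X t) := by simp [rho]

theorem rho_CX (l : Fin N) : rho A (C (X l)) = X l + C (uu A l) := by simp [rho]

theorem eta_uu (l : Fin N) :
    eta A (uu A l) = single (Pi.single l 1) 1 - ∑ a : A, single a.1 (X (l, a)) := by
  rw [uu, map_sub, map_sum, eta_C]
  congr 1
  refine Finset.sum_congr rfl fun a _ => ?_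
  rw [map_mul, eta_C, eta_X, single_mul_single, add_zero, one_mul]

theorem th_psi (f : Ev A) : th A (psi A f) = f := by
  have : (th A).comp (psi A) = RingHom.id _ := by
    refine AddMonoidAlgebra.ringHom_ext (fun r => ?_) fun z => ?_
    · have h : ((th A).comp (psi A)).comp singleZeroRingHom = singleZeroRingHom := by
        refine MvPolynomial.ringHom_ext' (MvPolynomial.ringHom_ext' (RingHom.ext_int _ _) fun l => ?_)
          fun t => ?_
        · change th A (psi A (single 0 (C (X l)))) = single 0 (C (X l))
          rw [psi_single, map_mul, th_C, eta_C, rho_CX, map_add, th_X, th_C, eta_uu, ss,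
            ← AddMonoidAlgebra.one_def]
          ring
        · change th A (psi A (single 0 (X t))) = single 0 (X t)
          rw [psi_single, map_mul, th_C, eta_C, rho_X, th_C, eta_X, single_mul_single, add_zero,
            mul_one]
      exact RingHom.congr_fun h r
    · simp only [RingHom.comp_apply, psi_single, map_one, one_mul, th_C, eta_C, RingHom.id_apply]
  exact RingHom.congr_fun this f

theorem psi_eta (h : Dv A) : psi A (eta A h) = C h := by
  have : (psi A).comp (eta A) = C := by
    refine MvPolynomial.ringHom_ext' ?_ fun t => ?_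
    · refine AddMonoidAlgebra.ringHom_ext' (RingHom.ext_int _ _) ?_
      ext z
      simp [eta_C, psi_single]
    · simp only [RingHom.comp_apply, eta_X, psi_single, rho_X, ← AddMonoidAlgebra.one_def,
        map_one, mul_one]
  exact RingHom.congr_fun this h

theorem psi_ss (l : Fin N) : psi A (ss A l) = X l := by
  simp only [ss, map_add, map_sub, map_sum, psi_single, rho_CX, rho_X, ← AddMonoidAlgebra.one_def,
    map_one, mul_one, one_mul, uu, map_mul, mul_comm (C (X _) : Pv A)]
  abel

theorem ss_mem (h0 : (0 : Zn N) ∈ A) (he : ∀ j, (Pi.single j 1 : Zn N) ∈ A) (l : Fin N) :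
    ss A l ∈ V (Cv A) A :=
  add_mem (sub_mem (single_mem_V h0 _) (single_mem_V (he l) _))
    (Submodule.sum_mem _ fun a _ => single_mem_V a.2 _)

/-- constant terms -/
noncomputable def io : Cv A →+* Dv A := constantCoeff.comp (rho A)

noncomputable def tau0 (N : ℕ) : Tz N →+* Lz N :=
  eval₂Hom (Int.castRingHom _) fun l => single (Pi.single l 1) 1

theorem tau0_inj : Function.Injective (tau0 N) := by
  let e : (Fin N →₀ ℕ) →+ Zn N :=
    { toFun := fun m i => m i
      map_zero' := by ext; simp
      map_add' := fun a b => by ext; simp }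
  have he : Function.Injective e := fun a b h => by
    ext i
    have := congrFun h i
    simpa [e] using this
  have : tau0 N = mapDomainRingHom ℤ e := by
    refine MvPolynomial.ringHom_ext' (RingHom.ext_int _ _) fun l => ?_
    have h1 : e (Finsupp.single l 1) = Pi.single l 1 := by
      ext i
      by_cases h : i = l
      · subst h; simp [e]
      · simp [e, h]
    simp only [tau0, eval₂Hom_X']
    rw [← h1]
    exact (mapDomain_single (f := e) (a := Finsupp.single l 1) (r := (1 : ℤ))).symm
  rw [this]
  exact mapDomain_injective he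

theorem io_X (t : Fin N × A) : io A (X t) = X t := by simp [io, rho_X]

theorem const_io_C (p : Tz N) : constantCoeff (io A (C p)) = tau0 N p := by
  have : (constantCoeff.comp (io A)).comp C = tau0 N := by
    refine MvPolynomial.ringHom_ext' (RingHom.ext_int _ _) fun l => ?_
    simp [io, rho_CX, tau0, uu]
  exact RingHom.congr_fun this p

theorem io_monomial (m : Fin N × A →₀ ℕ) (p : Tz N) :
    io A (monomial m p) = io A (C p) * monomial m 1 := by
  rw [monomial_eq, monomial_eq, map_mul, map_one, one_mul, Finsupp.prod, Finsupp.prod, map_prod]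
  simp only [map_pow, io_X]

theorem io_inj : Function.Injective (io A) := by
  rw [injective_iff_map_eq_zero]
  intro P hP
  by_contra hne
  obtain ⟨m, hm⟩ := P.support.exists_minimal (support_nonempty.2 hne)
  have h1 : MvPolynomial.coeff m (io A P) = tau0 N (MvPolynomial.coeff m P) := by
    conv_lhs => rw [P.as_sum]
    rw [map_sum, MvPolynomial.coeff_sum, Finset.sum_eq_single m]
    · rw [io_monomial, coeff_mul_monomial', if_pos le_rfl, tsub_self, mul_one, ← const_io_C,
        constantCoeff_eq]
    · intro k hk hkm
      rw [io_monomial, coeff_mul_monomial', if_neg]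
      exact fun hle => hkm (le_antisymm hle (hm.2 hk hle))
    · exact fun h => absurd hm.1 h
  rw [hP, MvPolynomial.coeff_zero] at h1
  exact mem_support_iff.1 hm.1 (tau0_inj (h1.symm.trans (map_zero _).symm))

theorem const_psi (δ : Cv A) : constantCoeff (psi A (single 0 δ)) = io A δ := by
  rw [psi_single, ← AddMonoidAlgebra.one_def, map_one, map_one, mul_one]; rfl

/-- the substitution that kills the sections indexed by `J` -/
noncomputable def sub (J : Finset (Fin N)) (a : A) : Ev A →+* Ev A :=
  liftNCRingHom
    (eval₂Hom (singleZeroRingHom.comp C) fun t : Fin N × A =>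
      single 0 (X t) - if t.1 ∈ J ∧ t.2 = a then single (-a.1) 1 * ss A t.1 else 0)
    (of (Cv A) (Zn N)) fun _ _ => Commute.all _ _

theorem sub_single (J : Finset (Fin N)) (a : A) (z : Zn N) : sub A J a (single z 1) = single z 1 := by
  rw [sub, liftNCRingHom_single]; simp

theorem sub_C (J : Finset (Fin N)) (a : A) (p : Tz N) :
    sub A J a (single 0 (C p)) = single 0 (C p) := by
  rw [sub, liftNCRingHom_single]; simp

theorem sub_X (J : Finset (Fin N)) (a : A) (t : Fin N × A) : sub A J a (single 0 (X t)) =
    single 0 (X t) - if t.1 ∈ J ∧ t.2 = a then single (-a.1) 1 * ss A t.1 else 0 := by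
  rw [sub, liftNCRingHom_single]; simp [← AddMonoidAlgebra.one_def]

theorem sum_sub_ite {E κ : Type} [CommRing E] [Fintype κ] [DecidableEq κ] (f : κ → E) (a : κ)
    (s : E) : ∑ b, (f b - if b = a then s else 0) = ∑ b, f b - s := by
  simp

theorem sub_ss (J : Finset (Fin N)) (a : A) {l : Fin N} (hl : l ∈ J) : sub A J a (ss A l) = 0 := by
  have h1 : ∀ b : A, sub A J a (single b.1 (X (l, b))) =
      single b.1 (X (l, b)) - if b = a then ss A l else 0 := by
    intro b
    have : (single b.1 (X (l, b)) : Ev A) = single b.1 1 * single 0 (X (l, b)) := by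
      rw [single_mul_single, add_zero, one_mul]
    rw [this, map_mul, sub_single, sub_X]
    by_cases h : b = a
    · subst h
      have h2 : (single b.1 1 : Ev A) * single (-b.1) 1 = 1 := by
        rw [single_mul_single, add_neg_cancel, mul_one, ← AddMonoidAlgebra.one_def]
      rw [if_pos ⟨hl, rfl⟩, if_pos rfl]
      linear_combination (-ss A l) * h2
    · rw [if_neg fun h' => h h'.2, if_neg h]
      ring
  have h3 : ∑ b : A, ((single b.1 (X (l, b)) : Ev A) - if b = a then ss A l else 0) =
      ∑ b : A, single b.1 (X (l, b)) - ss A l :=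
    sum_sub_ite (fun b : A => (single b.1 (X (l, b)) : Ev A)) a _
  conv_lhs => rw [ss]
  rw [map_add, map_sub, map_sum, sub_C, sub_single]
  simp only [h1]
  rw [h3, ss]
  ring

end Pool.Agent.MP_5f4cdd_gt.OKB
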