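import Mathlib

set_option autoImplicit false
open MvPolynomial

namespace Pool.Agent.MP_5f4cdd_gt.OKB

variable {N : ℕ} {D : Type} [CommRing D]

/-- all coefficients lexicographically below `g` vanish -/
def Van (p : MvPolynomial (Fin N) D) (g : Fin N →₀ ℕ) : Prop :=
  ∀ e : Fin N →₀ ℕ, toLex e < toLex g → coeff e p = 0

/-- `g` is the lexicographically least exponent of `p` -/
def IsOrd (p : MvPolynomial (Fin N) D) (g : Fin N →₀ ℕ) : Prop :=
  coeff g p ≠ 0 ∧ Van p g

theorem van_zero (p : MvPolynomial (Fin N) D) : Van p 0 := by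
  intro e he
  exact absurd he (not_lt.2 (bot_le (a := toLex e)))

theorem Van.mono {p : MvPolynomial (Fin N) D} {g g' : Fin N →₀ ℕ} (h : Van p g)
    (hg : toLex g' ≤ toLex g) : Van p g' := fun e he => h e (he.trans_le hg)

theorem exists_ord {p : MvPolynomial (Fin N) D} (hp : p ≠ 0) : ∃ g, IsOrd p g := by
  obtain ⟨g, hg, hmin⟩ := Finset.exists_min_image p.support (fun e => toLex e)
    (support_nonempty.2 hp)
  refine ⟨g, mem_support_iff.1 hg, fun e he => ?_⟩
  by_contra hne
  exact absurd (hmin e (mem_support_iff.2 hne)) (not_le.2 he)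

theorem IsOrd.le {p : MvPolynomial (Fin N) D} {g g' : Fin N →₀ ℕ} (h : IsOrd p g)
    (h' : Van p g') : toLex g' ≤ toLex g := by
  by_contra hlt
  exact h.1 (h' g (not_le.1 hlt))

theorem Van.mul_aux {p q : MvPolynomial (Fin N) D} {g g' : Fin N →₀ ℕ} (hp : Van p g)
    (hq : Van q g') (a b : Fin N →₀ ℕ) (hab : toLex (a + b) ≤ toLex (g + g'))
    (hne : coeff a p * coeff b q ≠ 0) : a = g ∧ b = g' := by
  have ha : toLex g ≤ toLex a := by
    by_contra h; exact hne (by rw [hp a (not_le.1 h), zero_mul])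
  have hb : toLex g' ≤ toLex b := by
    by_contra h; exact hne (by rw [hq b (not_le.1 h), mul_zero])
  rw [toLex_add, toLex_add] at hab
  have h1 : toLex a = toLex g := by
    by_contra h
    exact absurd hab (not_le.2 (add_lt_add_of_lt_of_le (lt_of_le_of_ne ha (Ne.symm h)) hb))
  have h2 : toLex b = toLex g' := by
    by_contra h
    exact absurd hab (not_le.2 (add_lt_add_of_le_of_lt ha (lt_of_le_of_ne hb (Ne.symm h))))
  exact ⟨toLex.injective h1, toLex.injective h2⟩

theorem Van.mul {p q : MvPolynomial (Fin N) D} {g g' : Fin N →₀ ℕ} (hp : Van p g)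
    (hq : Van q g') : Van (p * q) (g + g') := by
  intro e he
  rw [coeff_mul]
  refine Finset.sum_eq_zero fun x hx => ?_
  have hx' := Finset.HasAntidiagonal.mem_antidiagonal.1 hx
  by_contra hne
  obtain ⟨h1, h2⟩ := hp.mul_aux hq x.1 x.2 (by rw [hx']; exact he.le) hne
  rw [← hx', h1, h2] at he
  exact lt_irrefl _ he

theorem Van.coeff_mul {p q : MvPolynomial (Fin N) D} {g g' : Fin N →₀ ℕ} (hp : Van p g)
    (hq : Van q g') : coeff (g + g') (p * q) = coeff g p * coeff g' q := by
  rw [MvPolynomial.coeff_mul]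
  refine Finset.sum_eq_single (g, g') (fun x hx hne => ?_) (fun h => ?_)
  · have hx' := Finset.HasAntidiagonal.mem_antidiagonal.1 hx
    by_contra h
    obtain ⟨h1, h2⟩ := hp.mul_aux hq x.1 x.2 (by rw [hx']) h
    exact hne (Prod.ext h1 h2)
  · exact absurd (by simp) h

theorem IsOrd.mul [IsDomain D] {p q : MvPolynomial (Fin N) D} {g g' : Fin N →₀ ℕ}
    (hp : IsOrd p g) (hq : IsOrd q g') : IsOrd (p * q) (g + g') :=
  ⟨by rw [hp.2.coeff_mul hq.2]; exact mul_ne_zero hp.1 hq.1, hp.2.mul hq.2⟩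

theorem isOrd_monomial {g : Fin N →₀ ℕ} {c : D} (hc : c ≠ 0) : IsOrd (monomial g c) g := by
  refine ⟨by simpa using hc, fun e he => ?_⟩
  rw [coeff_monomial, if_neg]
  rintro rfl
  exact lt_irrefl _ he

/-- exponents with vanishing coordinates up to `j` lie below `g` -/
theorem lt_of_zero {e g : Fin N →₀ ℕ} {j : Fin N} (hg : ∀ i < j, g i = 0) (hj : 0 < g j)
    (he : ∀ i ≤ j, e i = 0) : toLex e < toLex g := by
  refine Finsupp.Lex.lt_iff.2 ⟨j, fun i hi => ?_, ?_⟩
  · simp [hg i hi, he i hi.le]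
  · simpa [he j le_rfl] using hj

theorem zero_of_lt {e g : Fin N →₀ ℕ} {j : Fin N} (hg : ∀ i < j, g i = 0)
    (he : toLex e < toLex g) : ∀ i < j, e i = 0 := by
  obtain ⟨k, hk, hlt⟩ := Finsupp.Lex.lt_iff.1 he
  simp only [ofLex_toLex] at hk hlt
  intro i hi
  have hjk : ¬ k < j := fun h => by rw [hg k h] at hlt; exact Nat.not_lt_zero _ hlt
  rw [hk i (hi.trans_le (not_lt.1 hjk)), hg i hi]

theorem mem_span_X {p : MvPolynomial (Fin N) D} {g : Fin N →₀ ℕ} {j : Fin N} (hp : Van p g)
    (hg : ∀ i < j, g i = 0) (hj : 0 < g j) :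
    p ∈ Ideal.span (X '' {i | i ≤ j} : Set (MvPolynomial (Fin N) D)) := by
  rw [mem_ideal_span_X_image]
  intro m hm
  by_contra h
  push Not at h
  exact mem_support_iff.1 hm (hp m (lt_of_zero hg hj fun i hi => h i hi))

/-- dividing by the variable `j` modulo the earlier variables -/
theorem IsOrd.div {p : MvPolynomial (Fin N) D} {g : Fin N →₀ ℕ} {j : Fin N} (hp : IsOrd p g)
    (hg : ∀ i < j, g i = 0) (hj : 0 < g j) (q : Fin N → MvPolynomial (Fin N) D)
    (hq : p = ∑ l ∈ Finset.Iic j, X l * q l) : IsOrd (q j) (g - Finsupp.single j 1) := by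
  have key : ∀ e : Fin N →₀ ℕ, (∀ i < j, e i = 0) →
      coeff (Finsupp.single j 1 + e) p = coeff e (q j) := by
    intro e he
    rw [hq, coeff_sum, Finset.sum_eq_single j]
    · rw [coeff_X_mul]
    · intro l hl hne
      have hlt : l < j := lt_of_le_of_ne (Finset.mem_Iic.1 hl) hne
      rw [coeff_X_mul', if_neg]
      simp [he l hlt, Finsupp.single_apply, hne.symm]
    · intro h; exact absurd (Finset.mem_Iic.2 le_rfl) h
  have hle : Finsupp.single j 1 ≤ g := Finsupp.single_le_iff.2 hj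
  have hg' : ∀ i < j, (g - Finsupp.single j 1 : Fin N →₀ ℕ) i = 0 := fun i hi => by
    simp [hg i hi]
  have hsum : Finsupp.single j 1 + (g - Finsupp.single j 1) = g := add_tsub_cancel_of_le hle
  refine ⟨?_, fun e he => ?_⟩
  · rw [← key _ hg', hsum]; exact hp.1
  · rw [← key e (zero_of_lt hg' he)]
    refine hp.2 _ ?_
    conv_rhs => rw [← hsum]
    rw [toLex_add, toLex_add]
    exact add_lt_add_right he _

end Pool.Agent.MP_5f4cdd_gt.OKB
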