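import Pool.Agent.MP_5f4cdd_gt.OKB.Ord

set_option autoImplicit false
open MvPolynomial AddMonoidAlgebra Pointwise Cardinal

namespace Pool.Agent.MP_5f4cdd_gt.OKB

variable {N : ℕ} {Λ C D : Type} [AddCommGroup Λ] [DecidableEq Λ] [CommRing C] [CommRing D]

/-- Laurent polynomials with exponents in `P` -/
noncomputable abbrev V (C : Type) [CommRing C] (P : Finset Λ) : Submodule C (AddMonoidAlgebra C Λ) :=
  AddMonoidAlgebra.supported C C (P : Set Λ)

theorem mem_V {P : Finset Λ} {f : AddMonoidAlgebra C Λ} : f ∈ V C P ↔ f.coeff.support ⊆ P := by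
  rw [AddMonoidAlgebra.mem_supported, Finset.coe_subset]

theorem V_mono {P P' : Finset Λ} (h : P ⊆ P') : V C P ≤ V C P' :=
  supported_mono (Finset.coe_subset.2 h)

theorem mul_mem_V {P P' : Finset Λ} {f g : AddMonoidAlgebra C Λ} (hf : f ∈ V C P)
    (hg : g ∈ V C P') : f * g ∈ V C (P + P') :=
  mem_V.2 ((support_coeff_mul_subset f g).trans
    (Finset.add_subset_add (mem_V.1 hf) (mem_V.1 hg)))

theorem single_mem_V {P : Finset Λ} {z : Λ} (hz : z ∈ P) (c : C) : single z c ∈ V C P :=
  mem_V.2 (Finsupp.support_single_subset.trans (Finset.singleton_subset_iff.2 hz))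

theorem pow_mem_V {P : Finset Λ} {f : AddMonoidAlgebra C Λ} (hf : f ∈ V C P) (k : ℕ) :
    f ^ k ∈ V C (k • P) := by
  induction k with
  | zero => rw [pow_zero, zero_nsmul, AddMonoidAlgebra.one_def]; exact single_mem_V (Finset.mem_zero.2 rfl) _
  | succ k ih => rw [pow_succ, succ_nsmul]; exact mul_mem_V ih hf

theorem V_induction {P : Finset Λ} (W : Submodule C (AddMonoidAlgebra C Λ))
    (h : ∀ z ∈ P, single z 1 ∈ W) : V C P ≤ W := by
  rw [V, supported_eq_span_single, Submodule.span_le]
  rintro _ ⟨z, hz, rfl⟩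
  exact h z hz

theorem rank_V [IsDomain C] (P : Finset Λ) : Module.rank C (V C P) = P.card := by
  rw [(supportedEquivFinsupp (R := C) (S := C) (P : Set Λ)).rank_eq, rank_finsupp_self']
  simp

section
variable [Algebra C D] (ψ : AddMonoidAlgebra C Λ →+* MvPolynomial (Fin N) D)
  (hc : ∀ δ : C, constantCoeff (ψ (single 0 δ)) = algebraMap C D δ)
include hc

theorem van_smul {f : AddMonoidAlgebra C Λ} {g : Fin N →₀ ℕ} (hf : Van (ψ f) g) (δ : C) :
    Van (ψ (δ • f)) g ∧ coeff g (ψ (δ • f)) = δ • coeff g (ψ f) := by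
  have h1 : δ • f = single 0 δ * f := by
    rw [Algebra.smul_def]; rfl
  have h2 := (van_zero (ψ (single 0 δ))).mul hf
  have h3 := (van_zero (ψ (single 0 δ))).coeff_mul hf
  rw [zero_add] at h2 h3
  rw [h1, map_mul]
  refine ⟨h2, ?_⟩
  rw [h3, Algebra.smul_def, ← hc δ, constantCoeff_eq]

/-- leaves have rank at most the rank of `D` -/
theorem rank_le [IsDomain C] (S : Finset (Lex (Fin N →₀ ℕ))) :
    ∀ W : Submodule C (AddMonoidAlgebra C Λ),
      (∀ f ∈ W, f ≠ 0 → ∃ g, toLex g ∈ S ∧ IsOrd (ψ f) g) →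
      Module.rank C W ≤ Module.rank C D * S.card := by
  induction S using Finset.induction_on_min with
  | empty =>
    intro W hW
    have : W = ⊥ := by
      rw [Submodule.eq_bot_iff]
      intro f hf
      by_contra hne
      obtain ⟨g, hg, -⟩ := hW f hf hne
      simp at hg
    rw [this]; simp
  | insert a S ha ih =>
    intro W hW
    have hvan : ∀ f ∈ W, Van (ψ f) (ofLex a) := by
      intro f hf
      by_cases h0 : f = 0
      · intro e _; simp [h0]
      · obtain ⟨g, hg, ho⟩ := hW f hf h0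
        refine ho.2.mono ?_
        rcases Finset.mem_insert.1 hg with h | h
        · exact h.ge
        · exact (ha _ h).le
    let φ : W →ₗ[C] D :=
      { toFun := fun f => coeff (ofLex a) (ψ f)
        map_add' := fun f g => by simp
        map_smul' := fun δ f => (van_smul ψ hc (hvan f f.2) δ).2 }
    have h1 := LinearMap.rank_range_add_rank_ker φ
    have h2 : Module.rank C (LinearMap.range φ) ≤ Module.rank C D := Submodule.rank_le _
    have h3 : Module.rank C (LinearMap.ker φ) ≤ Module.rank C D * S.card := by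
      rw [← (Submodule.equivSubtypeMap W (LinearMap.ker φ)).symm.rank_eq]
      refine ih _ ?_
      rintro _ ⟨f, hf, rfl⟩ hne
      obtain ⟨g, hg, ho⟩ := hW f f.2 hne
      refine ⟨g, ?_, ho⟩
      rcases Finset.mem_insert.1 hg with h | h
      · exfalso
        apply ho.1
        have : g = ofLex a := by rw [← h]; rfl
        rw [this]; exact hf
      · exact h
    have hna : a ∉ S := fun h => lt_irrefl _ (ha a h)
    rw [← h1, Finset.card_insert_of_notMem hna, Nat.cast_succ, mul_add, mul_one, add_comm]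
    exact add_le_add h3 h2

/-- products of elements of distinct orders with independent constants are independent -/
theorem indep [IsDomain D] {ι κ : Type} [Fintype ι] [Fintype κ] (g : ι → Fin N →₀ ℕ)
    (hg : Function.Injective g) (f : ι → AddMonoidAlgebra C Λ) (hf : ∀ i, IsOrd (ψ (f i)) (g i))
    (h : κ → D) (hh : LinearIndependent C h) (η : κ → AddMonoidAlgebra C Λ)
    (hη : ∀ k, ψ (η k) = MvPolynomial.C (h k)) :
    LinearIndependent C fun p : ι × κ => f p.1 * η p.2 := by
  classical
  rw [Fintype.linearIndependent_iff]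
  intro δ hδ
  by_contra hne
  push Not at hne
  obtain ⟨p0, hp0⟩ := hne
  obtain ⟨p, hp, hmin⟩ := Finset.exists_min_image (Finset.univ.filter fun p : ι × κ => δ p ≠ 0)
    (fun p => toLex (g p.1)) ⟨p0, by simpa using hp0⟩
  have hp' : δ p ≠ 0 := by simpa using hp
  have hv : ∀ q : ι × κ, Van (ψ (f q.1 * η q.2)) (g q.1) ∧
      coeff (g q.1) (ψ (f q.1 * η q.2)) = coeff (g q.1) (ψ (f q.1)) * h q.2 := by
    intro q
    have h2 := (hf q.1).2.mul (van_zero (ψ (η q.2)))
    have h3 := (hf q.1).2.coeff_mul (van_zero (ψ (η q.2)))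
    rw [add_zero] at h2 h3
    rw [map_mul]
    exact ⟨h2, by rw [h3, hη]; simp⟩
  have hsum : coeff (g p.1) (ψ (f p.1)) * ∑ k, δ (p.1, k) • h k = 0 := by
    have := congrArg (fun x => coeff (g p.1) (ψ x)) hδ
    simp only [map_sum, MvPolynomial.coeff_sum, map_zero, MvPolynomial.coeff_zero] at this
    rw [← this, Fintype.sum_prod_type, Finset.sum_eq_single p.1, Finset.mul_sum]
    · refine Finset.sum_congr rfl fun k _ => ?_
      rw [(van_smul ψ hc (hv (p.1, k)).1 _).2, (hv (p.1, k)).2, mul_smul_comm]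
    · intro i _ hi
      refine Finset.sum_eq_zero fun k _ => ?_
      by_cases h0 : δ (i, k) = 0
      · simp [h0]
      · refine (van_smul ψ hc (hv (i, k)).1 _).1 _ (lt_of_le_of_ne (hmin (i, k) (by simpa using h0)) ?_)
        exact fun e => hi (hg (toLex.injective e)).symm
    · simp
  have := (mul_eq_zero.1 hsum).resolve_left (hf p.1).1
  exact hp' (Fintype.linearIndependent_iff.1 hh _ this p.2)

theorem card_mul_le [IsDomain C] [IsDomain D] (θ : D → AddMonoidAlgebra C Λ)
    (hθ : ∀ h, ψ (θ h) = MvPolynomial.C h) {κ : Type} [Fintype κ] (h : κ → D)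
    (hh : LinearIndependent C h) : ∃ P0 : Finset Λ, ∀ (P : Finset Λ) (S : Finset (Fin N →₀ ℕ)),
      (∀ g ∈ S, ∃ f ∈ V C P, IsOrd (ψ f) g) → Fintype.card κ * S.card ≤ (P + P0).card := by
  refine ⟨Finset.univ.biUnion fun k => (θ (h k)).coeff.support, fun P S hS => ?_⟩
  choose f hf ho using hS
  have hi := indep ψ hc (fun g : S => g.1) Subtype.val_injective (fun g => f g.1 g.2)
    (fun g => ho g.1 g.2) h hh (fun k => θ (h k)) (fun k => hθ _)
  have hm : ∀ p : S × κ, f p.1.1 p.1.2 * θ (h p.2) ∈
      V C (P + Finset.univ.biUnion fun k => (θ (h k)).coeff.support) := fun p =>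
    mul_mem_V (hf _ _) (mem_V.2 (Finset.subset_biUnion_of_mem
      (fun k => (θ (h k)).coeff.support) (Finset.mem_univ p.2)))
  have hi' : LinearIndependent C fun p : S × κ =>
      (⟨_, hm p⟩ : V C (P + Finset.univ.biUnion fun k => (θ (h k)).coeff.support)) :=
    LinearIndependent.of_comp (Submodule.subtype _) hi
  have := hi'.cardinal_le_rank
  rw [rank_V] at this
  simp only [mk_fintype, Fintype.card_prod, Fintype.card_coe, Nat.cast_le] at this
  rwa [mul_comm]

end

end Pool.Agent.MP_5f4cdd_gt.OKB
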